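import Pool.Agent.H387.QR.Fin6
import Pool.Agent.H387.QR.CqInst

/-!
# q-roundness of the determinant of trihedron coefficients

We prove Kuperberg's conjecture: for every semisimple Lie algebra `𝔤` and all dominant integral weights
`λ₁, λ₂, λ₃`, the determinant of the trihedron pairing between `Inv (V_{λ₁} ⊗ V_{λ₂} ⊗ V_{λ₃})` and
`Inv (V_{λ₃*} ⊗ V_{λ₂*} ⊗ V_{λ₁*})`, in the dual canonical bases, is q-round.

All definitions are in `Pool.Agent.H387.QR.Base`.

## Conventions

* The ground field `K` is `ℂ(q)` (classes `HasQ`, `Cq`; `instCqRatFunc` is the instance `RatFunc ℂ`).  A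
  module over `U_q(𝔤)` is a vector space with operators `E_i, F_i, K_i, K_i⁻¹` satisfying the relations
  (`Mod` and `Mod.Serre`), with `q_i = q ^ d_i`.
* The coproduct is Lusztig's, `Δ(E_i) = E_i ⊗ 1 + K_i ⊗ E_i`, `Δ(F_i) = F_i ⊗ K_i⁻¹ + 1 ⊗ F_i`; the dual
  of a module carries `(u f)(x) = f (S(u) x)`, that is, the evaluation `V^* ⊗ V → ℂ(q)` is a
  homomorphism (`IsPair`).
* `CanMod C K λ M ι` : the irreducible module `V_λ` on the space `M`, with its canonical basis `b`,
  characterised as in Lusztig's book, 14.2.3 and 19.3.5 (a basis of the `ℤ[q,q⁻¹]`-form, fixed by the bar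
  involution, almost orthonormal for Lusztig's form `rho`); this determines `b` up to signs, and the
  theorem holds for all choices of the signs.  The dual canonical basis `bd` is the dual of `b`
  for the contragredient form `tau`.
* `DualCan A₁ A₂ A₃` : the dual canonical basis `D` of `V_{λ₁} ⊗ V_{λ₂} ⊗ V_{λ₃}`, indexed by the triples of
  basis vectors: `D j` is fixed by the bar involution `Ψ` of the tensor product and is congruent to
  the tensor product of dual canonical basis vectors modulo `q ℤ[q]`.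
  (This is the basis of Lusztig, Frenkel and Khovanov, dual to the canonical basis of the tensor
  product for the contragredient form.)
* `Duality A' A` : the identification of `V_{λ*}` with the dual of `V_λ`, normalised as in the problem:
  the functional dual to the highest weight vector of `V_λ` is the lowest weight vector in the
  canonical basis of `V_{λ*}`.
* `pair3 ev₁ ev₂ ev₃` : the pairing of `(V_{λ₃*} ⊗ V_{λ₂*}) ⊗ V_{λ₁*}` with `(V_{λ₁} ⊗ V_{λ₂}) ⊗ V_{λ₃}`, for
  `(A ⊗ B)^* = B^* ⊗ A^*`, without extra scalars; `trihedron` is its matrix.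
* `Enumerates B f` : the vectors `D (f 0), …, D (f (n - 1))` of the dual canonical basis form a basis of
  the space of invariant vectors.

By Lusztig's theorems all these data exist for every `𝔤` and all dominant `λ₁, λ₂, λ₃`.

## Proof

The determinant is a unit of `ℤ[q, q⁻¹][1/[n] : n > 0]` (`det_unit`), because the equivariant projector
onto the invariants of `V_{λ₁} ⊗ V_{λ₂} ⊗ V_{λ₃}` preserves all lattices over this ring which are stable
under `E_i`, `F_i`: it is a polynomial in a rescaled quantum Casimir operator, whose integrality comes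
from a factorisation of the Gram matrices of the free algebra (Shapovalov determinants).  The entries
are fixed by `q ↦ q⁻¹` (`det_bar`), and the substitution `q ↦ -q` multiplies the determinant by a unit of
`ℤ[q, q⁻¹]` (`det_parity`).  A unit of `ℤ[q, q⁻¹][1/[n]]` is, up to `± q^k`, a product of cyclotomic polynomials;
the two symmetries exclude `q^k` and force the factors to combine to quantum integers
(`isQRound_of_unit`).
-/

namespace Pool.Agent.Results.MP_8ad3a8_al.QRound

open Pool.Agent.H387.QR

/-- **q-roundness of the trihedron determinant** (Kuperberg's conjecture), for every Cartan matrix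
of finite type and all dominant integral weights. -/
theorem result {I : Type} [Fintype I] [DecidableEq I] (C : Cartan I)
    -- the field `ℂ(q)`
    {K : Type} [Field K] [HasQ K] [Cq K]
    -- dominant integral weights
    {lam₁ lam₂ lam₃ lam₁' lam₂' lam₃' : I → ℕ}
    -- vector spaces over `ℂ(q)`
    {M₁ M₂ M₃ N₁ N₂ N₃ : Type} [AddCommGroup M₁] [Module K M₁]
    [AddCommGroup M₂] [Module K M₂] [AddCommGroup M₃] [Module K M₃]
    [AddCommGroup N₁] [Module K N₁] [AddCommGroup N₂] [Module K N₂]
    [AddCommGroup N₃] [Module K N₃]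
    {ι₁ ι₂ ι₃ κ₁ κ₂ κ₃ : Type} [Fintype ι₁] [DecidableEq ι₁] [Fintype ι₂] [DecidableEq ι₂]
    [Fintype ι₃] [DecidableEq ι₃] [Fintype κ₁] [DecidableEq κ₁] [Fintype κ₂] [DecidableEq κ₂]
    [Fintype κ₃] [DecidableEq κ₃]
    -- the irreducible modules `V_{λ₁}, V_{λ₂}, V_{λ₃}` with their canonical bases
    (A₁ : CanMod C K lam₁ M₁ ι₁) (A₂ : CanMod C K lam₂ M₂ ι₂) (A₃ : CanMod C K lam₃ M₃ ι₃)
    -- the irreducible modules `V_{λ₁*}, V_{λ₂*}, V_{λ₃*}` with their canonical bases
    (A₁' : CanMod C K lam₁' N₁ κ₁) (A₂' : CanMod C K lam₂' N₂ κ₂) (A₃' : CanMod C K lam₃' N₃ κ₃)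
    (P₁ : Duality A₁' A₁) (P₂ : Duality A₂' A₂) (P₃ : Duality A₃' A₃)
    -- the dual canonical bases of `V_{λ₁} ⊗ V_{λ₂} ⊗ V_{λ₃}` and `V_{λ₃*} ⊗ V_{λ₂*} ⊗ V_{λ₁*}`
    (B : DualCan A₁ A₂ A₃) (B' : DualCan A₃' A₂' A₁')
    -- the basis vectors which form bases of the spaces of invariant vectors
    {n : ℕ} (f : Fin n → ι₁ × ι₂ × ι₃) (g : Fin n → κ₃ × κ₂ × κ₁)
    (hf : Enumerates B f) (hg : Enumerates B' g) :
    IsQRound (trihedron P₁ P₂ P₃ B B' g f).det :=
  qRound C A₁ A₂ A₃ A₁' A₂' A₃' P₁ P₂ P₃ B B' f g hf hg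

end Pool.Agent.Results.MP_8ad3a8_al.QRound
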